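import Pool.Agent.W78.EG.Defs
import Pool.Agent.W78.GA.Basic

set_option autoImplicit false

/-!
Project EG (helper78): the coefficients of the logarithmic derivative of the L-functions of the
characters of an imaginary quadratic order which is a principal ideal ring.
-/

namespace Pool.Agent.W357.EG

open Finset
open Pool.Agent.W78.GA
open Pool.Agent.W78.EG
open Pool.Agent.H304R3.HK (Lg)
open ArithmeticFunction (vonMangoldt)

variable {t c : ℤ}

lemma isDomain (hD : t ^ 2 < 4 * c) : IsDomain (Qd t c) := by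
  have : NoZeroDivisors (Qd t c) := ⟨fun {a b} h => by
    have h1 : nm (a * b) = 0 := by rw [h]; exact nm_zero
    rw [nm_mul, mul_eq_zero] at h1
    exact h1.imp (nm_eq_zero hD).1 (nm_eq_zero hD).1⟩
  have : Nontrivial (Qd t c) := ⟨0, 1, fun h => by
    have := congrArg nm h
    simp at this⟩
  exact NoZeroDivisors.to_isDomain _

lemma isUnit_iff (hD : t ^ 2 < 4 * c) {z : Qd t c} : IsUnit z ↔ nm z = 1 := by
  constructor
  · rintro ⟨u, rfl⟩
    have h := congrArg nm (u.mul_inv)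
    rw [nm_mul, nm_one] at h
    exact Nat.eq_one_of_mul_eq_one_right h
  · intro h
    have h1 := mul_star_self' hD z
    rw [h, Nat.cast_one] at h1
    exact IsUnit.of_mul_eq_one _ h1

lemma mem_ball1 (hD : t ^ 2 < 4 * c) {z : Qd t c} : z ∈ ball t c 1 ↔ nm z = 1 := by
  rw [mem_ball hD]
  constructor
  · rintro ⟨h1, h2⟩
    have : nm z ≤ 1 := by exact_mod_cast h2
    omega
  · intro h
    rw [h]
    simp

lemma mem_ballu (hD : t ^ 2 < 4 * c) {z : Qd t c} : z ∈ ball t c 1 ↔ IsUnit z := by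
  rw [mem_ball1 hD, isUnit_iff hD]

lemma nm_assoc (hD : t ^ 2 < 4 * c) {a b : Qd t c} (h : Associated a b) : nm a = nm b := by
  obtain ⟨u, rfl⟩ := h
  rw [nm_mul, (isUnit_iff hD).1 u.isUnit, mul_one]

/-- elements of norm `n` -/
noncomputable def Nn (t c : ℤ) (n : ℕ) : Finset (Qd t c) :=
  (ball t c n).filter (fun z => nm z = n)

lemma mem_Nn (hD : t ^ 2 < 4 * c) {n : ℕ} {z : Qd t c} : z ∈ Nn t c n ↔ 1 ≤ n ∧ nm z = n := by
  unfold Nn
  rw [mem_filter, mem_ball hD]
  constructor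
  · rintro ⟨⟨h1, -⟩, h2⟩
    exact ⟨h2 ▸ h1, h2⟩
  · rintro ⟨h1, h2⟩
    rw [h2]
    exact ⟨⟨h1, le_rfl⟩, rfl⟩

lemma uc_pos (hD : t ^ 2 < 4 * c) : 0 < uc t c :=
  Finset.card_pos.2 ⟨1, (mem_ball1 hD).2 nm_one⟩

open scoped Classical in
/-- the associates of `a` -/
noncomputable def asc (a : Qd t c) : Finset (Qd t c) := (ball t c 1).image (fun u => a * u)

lemma mem_asc (hD : t ^ 2 < 4 * c) {a d : Qd t c} : d ∈ asc a ↔ Associated a d := by
  classical
  unfold asc
  rw [mem_image]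
  constructor
  · rintro ⟨u, hu, rfl⟩
    obtain ⟨v, hv⟩ := (mem_ballu hD).1 hu
    exact ⟨v, by rw [hv]⟩
  · rintro ⟨u, rfl⟩
    exact ⟨u, (mem_ballu hD).2 u.isUnit, rfl⟩

lemma card_asc (hD : t ^ 2 < 4 * c) {a : Qd t c} (ha : a ≠ 0) : (asc a).card = uc t c := by
  classical
  have := isDomain hD
  unfold asc uc
  exact Finset.card_image_of_injective _ (fun u v h => mul_left_cancel₀ ha h)

open scoped Classical in
/-- `log nm π` on the associates of `π ^ k`, `k ≥ 1`, otherwise `0` -/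
noncomputable def LK (d : Qd t c) : ℝ :=
  if h : ∃ π : Qd t c, ∃ k : ℕ, Prime π ∧ 1 ≤ k ∧ Associated (π ^ k) d then
    Real.log (nm h.choose) else 0

lemma LK_nonneg (d : Qd t c) : 0 ≤ LK d := by
  unfold LK
  split_ifs with h
  · exact Real.log_natCast_nonneg _
  · exact le_rfl

lemma LK_ne {d : Qd t c} (h : LK d ≠ 0) :
    ∃ π : Qd t c, ∃ k : ℕ, Prime π ∧ 1 ≤ k ∧ Associated (π ^ k) d := by
  unfold LK at h
  split_ifs at h with h1
  · exact h1
  · exact absurd rfl h

lemma LK_eq (hD : t ^ 2 < 4 * c) {π d : Qd t c} {k : ℕ} (hπ : Prime π) (hk : 1 ≤ k)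
    (h : Associated (π ^ k) d) : LK d = Real.log (nm π) := by
  have := isDomain hD
  have h1 : ∃ π : Qd t c, ∃ k : ℕ, Prime π ∧ 1 ≤ k ∧ Associated (π ^ k) d := ⟨π, k, hπ, hk, h⟩
  unfold LK
  rw [dif_pos h1]
  obtain ⟨k', hπ', hk', h'⟩ := h1.choose_spec
  have h2 : π ∣ h1.choose ^ k' :=
    (dvd_pow_self π (by omega)).trans ((h.trans h'.symm).dvd)
  have h3 : π ∣ h1.choose := hπ.dvd_of_dvd_pow h2
  have h4 : Associated π h1.choose := (hπ.dvd_prime_iff_associated hπ').1 h3
  rw [nm_assoc hD h4]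

lemma LK_unit {d : Qd t c} (hd : IsUnit d) : LK d = 0 := by
  by_contra h
  obtain ⟨π, k, hπ, hk, ha⟩ := LK_ne h
  have h1 : IsUnit (π ^ k) := ha.symm.isUnit hd
  exact hπ.not_isUnit (isUnit_of_dvd_unit (dvd_pow_self π (by omega)) h1)

lemma sum_LK (hD : t ^ 2 < 4 * c) (hP : S_PID t c) (X : ℝ) (z : Qd t c) (hz : z ≠ 0)
    (hX : (nm z : ℝ) ≤ X) :
    ∑ d ∈ ball t c X, (open scoped Classical in if d ∣ z then LK d else 0) =
      uc t c * Real.log (nm z) := by
  classical
  have := isDomain hD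
  have : IsPrincipalIdealRing (Qd t c) := hP
  revert hz hX
  refine UniqueFactorizationMonoid.induction_on_prime z (fun h => absurd rfl h) ?_ ?_
  · intro u hu _ _
    rw [(isUnit_iff hD).1 hu, Nat.cast_one, Real.log_one, mul_zero]
    refine Finset.sum_eq_zero fun d _ => ?_
    split_ifs with h
    · exact LK_unit (isUnit_of_dvd_unit h hu)
    · rfl
  · intro a p ha hp ih hpa hX
    have hnp : 0 < nm p := nm_pos hD hp.ne_zero
    have hna : 0 < nm a := nm_pos hD ha
    have hX' : (nm p : ℝ) * nm a ≤ X := by rw [nm_mul] at hX; exact_mod_cast hX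
    have hXa : (nm a : ℝ) ≤ X := by
      have h1 : (1 : ℝ) ≤ nm p := by exact_mod_cast hnp
      have h2 : (0 : ℝ) ≤ nm a := Nat.cast_nonneg _
      nlinarith
    obtain ⟨v, b, hb, hab⟩ := WfDvdMonoid.max_power_factor ha hp.irreducible
    have hpt : ∀ d ∈ ball t c X, (if d ∣ p * a then LK d else 0) =
        (if d ∣ a then LK d else 0) + (if d ∈ asc (p ^ (v + 1)) then LK d else 0) := by
      intro d _
      by_cases h0 : LK d = 0
      · simp [h0]
      obtain ⟨ρ, k, hρ, hk, hd⟩ := LK_ne h0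
      by_cases h1 : d ∣ a
      · have h2 : d ∉ asc (p ^ (v + 1)) := by
          rw [mem_asc hD]
          intro h3
          have h4 : p ^ (v + 1) ∣ p ^ v * b := by rw [← hab]; exact h3.dvd.trans h1
          rw [pow_succ] at h4
          exact hb ((mul_dvd_mul_iff_left (pow_ne_zero v hp.ne_zero)).1 h4)
        rw [if_pos h1, if_pos (h1.mul_left p), if_neg h2, add_zero]
      · have h2 : d ∣ p * a ↔ d ∈ asc (p ^ (v + 1)) := by
          rw [mem_asc hD]
          constructor
          · intro h3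
            have h4 : ρ ^ k ∣ p * a := hd.dvd.trans h3
            have h5 : ρ ∣ p := by
              by_contra h6
              exact h1 (hd.symm.dvd.trans (hρ.pow_dvd_of_dvd_mul_left k h6 h4))
            have h6 : Associated ρ p := (hρ.dvd_prime_iff_associated hp).1 h5
            have h7 : Associated (p ^ k) d := (h6.symm.pow_pow (n := k)).trans hd
            have h8 : p ^ k ∣ p ^ (v + 1) * b := by
              have : p * a = p ^ (v + 1) * b := by rw [hab, pow_succ]; ring
              rw [← this]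
              exact h7.dvd.trans h3
            have h9 : k ≤ v + 1 := by
              by_contra h10
              have h11 : p ^ (v + 1 + 1) ∣ p ^ (v + 1) * b :=
                (pow_dvd_pow p (by omega)).trans h8
              rw [pow_succ p (v + 1)] at h11
              exact hb ((mul_dvd_mul_iff_left (pow_ne_zero (v + 1) hp.ne_zero)).1 h11)
            have h10 : v + 1 ≤ k := by
              by_contra h11
              apply h1
              rw [hab]
              exact h7.symm.dvd.trans ((pow_dvd_pow p (by omega)).mul_right b)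
            have h11 : k = v + 1 := le_antisymm h9 h10
            rw [← h11]
            exact h7
          · intro h3
            refine h3.symm.dvd.trans ?_
            rw [hab, ← mul_assoc, ← pow_succ']
            exact dvd_mul_right _ _
        rw [if_neg h1, zero_add]
        by_cases h3 : d ∈ asc (p ^ (v + 1))
        · rw [if_pos h3, if_pos (h2.2 h3)]
        · rw [if_neg h3, if_neg (fun h => h3 (h2.1 h))]
    rw [Finset.sum_congr rfl hpt, Finset.sum_add_distrib, ih ha hXa]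
    have hsub : asc (p ^ (v + 1)) ⊆ ball t c X := by
      intro d hd
      have h1 := nm_assoc hD ((mem_asc hD).1 hd)
      rw [mem_ball hD, ← h1]
      refine ⟨nm_pos hD (pow_ne_zero _ hp.ne_zero), ?_⟩
      have h2 : nm (p ^ (v + 1)) ∣ nm (p * a) := nm_dvd (by
        rw [hab, ← mul_assoc, ← pow_succ']; exact dvd_mul_right _ _)
      have h3 : nm (p ^ (v + 1)) ≤ nm (p * a) :=
        Nat.le_of_dvd (nm_pos hD (mul_ne_zero hp.ne_zero ha)) h2
      exact (Nat.cast_le.2 h3).trans hX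
    rw [← Finset.sum_filter, Finset.filter_mem_eq_inter, Finset.inter_eq_right.2 hsub]
    have hcon : ∀ d ∈ asc (p ^ (v + 1)), LK d = Real.log (nm p) := fun d hd =>
      LK_eq hD hp (by omega) ((mem_asc hD).1 hd)
    rw [Finset.sum_congr rfl hcon, Finset.sum_const, card_asc hD (pow_ne_zero _ hp.ne_zero),
      nsmul_eq_mul, nm_mul, Nat.cast_mul, Real.log_mul (by exact_mod_cast hnp.ne')
      (by exact_mod_cast hna.ne')]
    ring

lemma aL_eq {φ : Qd t c → ℂ} (n : ℕ) : aL φ n = (∑ z ∈ Nn t c n, φ z) / (uc t c : ℂ) := rfl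

lemma HCh.norm_le {M : ℕ} (hM : 1 ≤ M) {φ : Qd t c → ℂ} (H : HCh M φ) (z : Qd t c) :
    ‖φ z‖ ≤ 1 := by
  classical
  -- finitely many values
  set R : Finset (Qd t c) := ((range M) ×ˢ (range M)).image
    (fun p : ℕ × ℕ => (⟨(p.1 : ℤ), (p.2 : ℤ)⟩ : Qd t c)) with hR
  set C : ℝ := ∑ w ∈ R, ‖φ w‖ with hC
  have hM0 : (0 : ℤ) < M := by exact_mod_cast hM
  have hb : ∀ w : Qd t c, ‖φ w‖ ≤ C := by
    intro w
    set r : Qd t c := ⟨w.re % M, w.im % M⟩ with hr
    have h1 : φ w = φ r := H.per w r (by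
      rw [hr]
      exact Int.dvd_self_sub_emod) (by
      rw [hr]
      exact Int.dvd_self_sub_emod)
    have h2 : r ∈ R := by
      rw [hR, mem_image]
      refine ⟨((w.re % M).toNat, (w.im % M).toNat), ?_, ?_⟩
      · rw [mem_product, mem_range, mem_range]
        have h3 := Int.emod_lt_of_pos w.re hM0
        have h4 := Int.emod_lt_of_pos w.im hM0
        have h5 := Int.emod_nonneg w.re hM0.ne'
        have h6 := Int.emod_nonneg w.im hM0.ne'
        constructor
        · omega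
        · omega
      · rw [hr]
        simp only [Int.toNat_of_nonneg (Int.emod_nonneg _ hM0.ne')]
    rw [h1, hC]
    exact Finset.single_le_sum (f := fun w => ‖φ w‖) (fun _ _ => norm_nonneg _) h2
  have hpow : ∀ k : ℕ, φ (z ^ k) = φ z ^ k := by
    intro k
    induction k with
    | zero => rw [pow_zero, pow_zero, H.one]
    | succ k ih => rw [pow_succ, pow_succ, H.mul, ih]
  by_contra h
  push Not at h
  obtain ⟨k, hk⟩ := pow_unbounded_of_one_lt C h
  have h1 := hb (z ^ k)
  rw [hpow, norm_pow] at h1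
  linarith

/-- the coefficients of the logarithmic derivative, times `Λ` -/
noncomputable def Bk (φ : Qd t c → ℂ) (m : ℕ) : ℂ :=
  (∑ d ∈ Nn t c m, (LK d : ℂ) * φ d) / (uc t c : ℂ)

/-- sum over the multiples of `d` of norm `n` -/
lemma sum_mul (hD : t ^ 2 < 4 * c) {M : ℕ} {φ : Qd t c → ℂ} (H : HCh M φ) {n m : ℕ} (hn : n ≠ 0)
    (hm : m ∣ n) {d : Qd t c} (hd : nm d = m) :
    ∑ z ∈ Nn t c n, (open scoped Classical in if d ∣ z then φ z else 0) =
      φ d * ∑ w ∈ Nn t c (n / m), φ w := by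
  classical
  have := isDomain hD
  have hm0 : 0 < m := Nat.pos_of_dvd_of_pos hm (Nat.pos_of_ne_zero hn)
  have hd0 : d ≠ 0 := by
    rintro rfl
    rw [nm_zero] at hd
    omega
  have hnm0 : 1 ≤ n / m := Nat.div_pos (Nat.le_of_dvd (Nat.pos_of_ne_zero hn) hm) hm0
  rw [← Finset.sum_filter, Finset.mul_sum]
  refine (Finset.sum_bij (fun w _ => d * w) ?_ ?_ ?_ ?_).symm
  · intro w hw
    rw [mem_filter, mem_Nn hD, nm_mul, hd, ((mem_Nn hD).1 hw).2]
    exact ⟨⟨Nat.pos_of_ne_zero hn, Nat.mul_div_cancel' hm⟩, dvd_mul_right _ _⟩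
  · intro a _ b _ h
    exact mul_left_cancel₀ hd0 h
  · intro z hz
    rw [mem_filter, mem_Nn hD] at hz
    obtain ⟨⟨-, h1⟩, w, rfl⟩ := hz
    refine ⟨w, ?_, rfl⟩
    rw [mem_Nn hD]
    refine ⟨hnm0, ?_⟩
    rw [nm_mul, hd] at h1
    rw [← h1, Nat.mul_div_cancel_left _ hm0]
  · intro w _
    rw [H.mul]

/-- the identity of the logarithmic derivative -/
lemma log_id (hD : t ^ 2 < 4 * c) (hP : S_PID t c) {M : ℕ} {φ : Qd t c → ℂ} (H : HCh M φ)
    {n : ℕ} (hn : n ≠ 0) :
    aL φ n * (Real.log n : ℂ) = ∑ m ∈ n.divisors, Bk φ m * aL φ (n / m) := by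
  classical
  have huc : (uc t c : ℂ) ≠ 0 := by exact_mod_cast (uc_pos hD).ne'
  have h1 : ∀ z ∈ Nn t c n, φ z * ((uc t c : ℂ) * (Real.log n : ℂ)) =
      ∑ d ∈ ball t c n, (LK d : ℂ) * (if d ∣ z then φ z else 0) := by
    intro z hz
    obtain ⟨h2, h3⟩ := (mem_Nn hD).1 hz
    have hz0 : z ≠ 0 := by
      rintro rfl
      rw [nm_zero] at h3
      omega
    have h4 := sum_LK hD hP (n : ℝ) z hz0 (by rw [h3])
    rw [h3] at h4
    have h5 : ((uc t c : ℂ) * (Real.log n : ℂ)) =
        ∑ d ∈ ball t c n, ((if d ∣ z then LK d else 0 : ℝ) : ℂ) := by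
      rw [← Complex.ofReal_sum, h4]
      push_cast
      rfl
    rw [h5, Finset.mul_sum]
    refine Finset.sum_congr rfl fun d _ => ?_
    split_ifs
    · ring
    · simp
  have h2 : (∑ z ∈ Nn t c n, φ z) * ((uc t c : ℂ) * (Real.log n : ℂ)) =
      ∑ d ∈ ball t c n, (LK d : ℂ) * ∑ z ∈ Nn t c n, (if d ∣ z then φ z else 0) := by
    rw [Finset.sum_mul, Finset.sum_congr rfl h1, Finset.sum_comm]
    exact Finset.sum_congr rfl fun d _ => by rw [Finset.mul_sum]
  have h3 : ∑ d ∈ ball t c n, (LK d : ℂ) * ∑ z ∈ Nn t c n, (if d ∣ z then φ z else 0) =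
      ∑ m ∈ n.divisors, ∑ d ∈ Nn t c m, (LK d : ℂ) * (φ d * ∑ w ∈ Nn t c (n / m), φ w) := by
    have h4 : ∀ d ∈ ball t c n, d ∉ n.divisors.biUnion (fun m => Nn t c m) →
        (LK d : ℂ) * ∑ z ∈ Nn t c n, (if d ∣ z then φ z else 0) = 0 := by
      intro d hd hd2
      rw [Finset.sum_eq_zero, mul_zero]
      intro z hz
      rw [if_neg]
      intro hdz
      apply hd2
      obtain ⟨h5, h6⟩ := (mem_Nn hD).1 hz
      rw [mem_biUnion]
      refine ⟨nm d, ?_, (mem_Nn hD).2 ⟨((mem_ball hD).1 hd).1, rfl⟩⟩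
      rw [Nat.mem_divisors]
      exact ⟨h6 ▸ nm_dvd hdz, hn⟩
    have hsub : n.divisors.biUnion (fun m => Nn t c m) ⊆ ball t c n := by
      intro d hd
      rw [mem_biUnion] at hd
      obtain ⟨m, hm, hd⟩ := hd
      obtain ⟨h5, h6⟩ := (mem_Nn hD).1 hd
      rw [mem_ball hD, h6]
      exact ⟨h5, Nat.cast_le.2 (Nat.divisor_le hm)⟩
    rw [← Finset.sum_subset hsub h4, Finset.sum_biUnion]
    · refine Finset.sum_congr rfl fun m hm => Finset.sum_congr rfl fun d hd => ?_
      rw [sum_mul hD H hn (Nat.dvd_of_mem_divisors hm) ((mem_Nn hD).1 hd).2]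
    · intro m _ m' _ hmm
      rw [Function.onFun, Finset.disjoint_left]
      intro d hd hd'
      exact hmm (((mem_Nn hD).1 hd).2.symm.trans ((mem_Nn hD).1 hd').2)
  rw [h3] at h2
  have h4 : ∀ m ∈ n.divisors, ∑ d ∈ Nn t c m, (LK d : ℂ) * (φ d * ∑ w ∈ Nn t c (n / m), φ w) =
      (uc t c : ℂ) * (uc t c : ℂ) * (Bk φ m * aL φ (n / m)) := by
    intro m _
    have h6 : ∑ d ∈ Nn t c m, (LK d : ℂ) * (φ d * ∑ w ∈ Nn t c (n / m), φ w) =
        (∑ d ∈ Nn t c m, (LK d : ℂ) * φ d) * ∑ w ∈ Nn t c (n / m), φ w := by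
      rw [Finset.sum_mul]
      exact Finset.sum_congr rfl fun d _ => by ring
    rw [h6, aL_eq, Bk]
    field_simp
  rw [Finset.sum_congr rfl h4, ← Finset.mul_sum] at h2
  rw [aL_eq]
  have h5 : (uc t c : ℂ) * (uc t c : ℂ) ≠ 0 := mul_ne_zero huc huc
  apply mul_left_cancel₀ h5
  rw [← h2]
  field_simp

/-- prime elements lie above rational primes -/
lemma prime_above (hD : t ^ 2 < 4 * c) {π : Qd t c} (hπ : Prime π) :
    ∃ p : ℕ, p.Prime ∧ π ∣ (p : Qd t c) ∧ (nm π = p ∨ nm π = p ^ 2) := by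
  have h1 : π ∣ ((nm π : ℕ) : Qd t c) := by
    rw [← mul_star_self' hD]
    exact dvd_mul_right _ _
  have hn1 : nm π ≠ 1 := fun h => hπ.not_isUnit ((isUnit_iff hD).2 h)
  have key : ∀ n : ℕ, n ≠ 0 → π ∣ (n : Qd t c) → ∃ p : ℕ, p.Prime ∧ π ∣ (p : Qd t c) := by
    intro n
    induction n using Nat.recOnMul with
    | zero => intro h; exact absurd rfl h
    | one =>
      intro _ h
      rw [Nat.cast_one] at h
      exact absurd (isUnit_of_dvd_one h) hπ.not_isUnit
    | prime p hp => intro _ h; exact ⟨p, hp, h⟩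
    | mul a b iha ihb =>
      intro h0 h
      rw [Nat.cast_mul] at h
      rcases hπ.dvd_or_dvd h with h | h
      · exact iha (fun h' => h0 (by rw [h', zero_mul])) h
      · exact ihb (fun h' => h0 (by rw [h', mul_zero])) h
  obtain ⟨p, hp, hpd⟩ := key (nm π) (nm_pos hD hπ.ne_zero).ne' h1
  refine ⟨p, hp, hpd, ?_⟩
  have h2 := nm_dvd hpd
  rw [nm_natCast] at h2
  obtain ⟨i, hi, h3⟩ := (Nat.dvd_prime_pow hp).1 h2
  interval_cases i
  · exact absurd h3 (by simpa using hn1)
  · left; simpa using h3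
  · right; exact h3

/-- `LK d ≠ 0` only if `nm d` is a prime power -/
lemma LK_pp (hD : t ^ 2 < 4 * c) {d : Qd t c} (h : LK d ≠ 0) : IsPrimePow (nm d) := by
  obtain ⟨π, k, hπ, hk, ha⟩ := LK_ne h
  obtain ⟨p, hp, -, h1⟩ := prime_above hD hπ
  rw [← nm_assoc hD ha, nm_pow]
  rcases h1 with h1 | h1
  · rw [h1]
    exact hp.isPrimePow.pow (by omega)
  · rw [h1, ← pow_mul]
    exact hp.isPrimePow.pow (by omega)

/-- the sum of `LK` over the elements of given norm -/
lemma sum_LK_le (hD : t ^ 2 < 4 * c) (hP : S_PID t c) (m : ℕ) :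
    ∑ d ∈ Nn t c m, LK d ≤ 2 * (uc t c * vonMangoldt m) := by
  classical
  have := isDomain hD
  have : IsPrincipalIdealRing (Qd t c) := hP
  have huc : (0 : ℝ) ≤ uc t c := Nat.cast_nonneg _
  by_cases hm : IsPrimePow m
  swap
  · rw [Finset.sum_eq_zero]
    · have := ArithmeticFunction.vonMangoldt_nonneg (n := m)
      positivity
    · intro d hd
      by_contra h
      exact hm (((mem_Nn hD).1 hd).2 ▸ LK_pp hD h)
  obtain ⟨p, j, hp', hj, rfl⟩ := hm
  have hp : p.Prime := Nat.prime_iff.2 hp'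
  have hΛ : vonMangoldt (p ^ j) = Real.log p := by
    rw [ArithmeticFunction.vonMangoldt_apply_pow hj.ne', ArithmeticFunction.vonMangoldt_apply_prime hp]
  rw [hΛ]
  have hlog : 0 ≤ Real.log p := Real.log_natCast_nonneg p
  -- a prime above p
  have hpne : (p : Qd t c) ≠ 0 := by
    intro h
    have := congrArg nm h
    rw [nm_natCast, nm_zero] at this
    exact hp.ne_zero (pow_eq_zero_iff (two_ne_zero) |>.1 this)
  have hpnu : ¬ IsUnit (p : Qd t c) := by
    intro h
    rw [isUnit_iff hD, nm_natCast] at h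
    have := hp.two_le
    nlinarith
  obtain ⟨π, hπi, ρ, hρ⟩ := WfDvdMonoid.exists_irreducible_factor hpnu hpne
  have hπ : Prime π := hπi.prime
  have hnn : nm π * nm ρ = p ^ 2 := by rw [← nm_mul, ← hρ, nm_natCast]
  -- all primes with norm a power of p divide p
  have habove : ∀ (π₂ : Qd t c) (k : ℕ), Prime π₂ → 1 ≤ k → nm (π₂ ^ k) = p ^ j →
      π₂ ∣ (p : Qd t c) := by
    intro π₂ k h2 hk hnm
    obtain ⟨q, hq, hqd, hqn⟩ := prime_above hD h2
    have h3 : q ∣ p ^ j := by
      rw [← hnm, nm_pow]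
      refine dvd_pow ?_ (by omega)
      rcases hqn with h | h
      · rw [h]
      · rw [h]; exact dvd_pow_self q two_ne_zero
    have h4 : q = p := (Nat.prime_dvd_prime_iff_eq hq hp).1 (hq.dvd_of_dvd_pow h3)
    rw [← h4]
    exact hqd
  have hn1 : nm π ≠ 1 := fun h => hπ.not_isUnit ((isUnit_iff hD).2 h)
  obtain ⟨i, hi, hni⟩ := (Nat.dvd_prime_pow hp).1 (Dvd.intro _ hnn)
  have hcase : nm π = p ∨ nm π = p ^ 2 := by
    interval_cases i
    · exact absurd hni (by simpa using hn1)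
    · left; simpa using hni
    · right; exact hni
  have hp1 : 1 < p := hp.one_lt
  rcases hcase with hc1 | hc2
  · -- split or ramified
    have hρn : nm ρ = p := by
      rw [hc1, sq] at hnn
      exact Nat.eq_of_mul_eq_mul_left hp.pos hnn
    have hρp : Prime ρ := by
      apply Irreducible.prime
      constructor
      · rw [isUnit_iff hD, hρn]; exact hp.one_lt.ne'
      · intro a b hab
        have h1 : nm a * nm b = p := by rw [← nm_mul, ← hab, hρn]
        rw [isUnit_iff hD, isUnit_iff hD]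
        rcases (Nat.dvd_prime hp).1 (Dvd.intro _ h1) with h | h
        · left; exact h
        · right
          rw [h] at h1
          exact Nat.eq_of_mul_eq_mul_left hp.pos (by rw [h1, mul_one])
    have hle : ∀ d ∈ Nn t c (p ^ j), LK d ≤ if d ∈ asc (π ^ j) ∪ asc (ρ ^ j) then Real.log p else 0 := by
      intro d hd
      by_cases h0 : LK d = 0
      · rw [h0]; split_ifs <;> simp [hlog]
      obtain ⟨π₂, k, h2, hk, ha⟩ := LK_ne h0
      have hnm : nm (π₂ ^ k) = p ^ j := by rw [nm_assoc hD ha]; exact ((mem_Nn hD).1 hd).2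
      have h3 := habove π₂ k h2 hk hnm
      rw [hρ] at h3
      have h5 : ∀ σ : Qd t c, Prime σ → nm σ = p → π₂ ∣ σ → Associated (σ ^ j) d ∧ LK d = Real.log p := by
        intro σ hσ hσn hd2
        have h6 : Associated π₂ σ := (h2.dvd_prime_iff_associated hσ).1 hd2
        have h7 : nm π₂ = p := by rw [nm_assoc hD h6, hσn]
        have h8 : k = j := by
          rw [nm_pow, h7] at hnm
          exact Nat.pow_right_injective hp.two_le hnm
        rw [h8] at ha
        refine ⟨(h6.symm.pow_pow (n := j)).trans ha, ?_⟩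
        rw [LK_eq hD h2 (by omega) ha, h7]
      rcases h2.dvd_or_dvd h3 with h4 | h4
      · obtain ⟨h6, h7⟩ := h5 π hπ hc1 h4
        rw [if_pos (mem_union_left _ ((mem_asc hD).2 h6)), h7]
      · obtain ⟨h6, h7⟩ := h5 ρ hρp hρn h4
        rw [if_pos (mem_union_right _ ((mem_asc hD).2 h6)), h7]
    refine (Finset.sum_le_sum hle).trans ?_
    rw [← Finset.sum_filter, Finset.sum_const, nsmul_eq_mul, ← mul_assoc]
    refine mul_le_mul_of_nonneg_right ?_ hlog
    have h6 : ((Nn t c (p ^ j)).filter (fun d => d ∈ asc (π ^ j) ∪ asc (ρ ^ j))).card ≤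
        uc t c + uc t c := by
      refine (Finset.card_le_card (fun d hd => (mem_filter.1 hd).2)).trans ?_
      refine (Finset.card_union_le _ _).trans ?_
      rw [card_asc hD (pow_ne_zero _ hπ.ne_zero), card_asc hD (pow_ne_zero _ hρp.ne_zero)]
    have h7 : (((Nn t c (p ^ j)).filter (fun d => d ∈ asc (π ^ j) ∪ asc (ρ ^ j))).card : ℝ) ≤
        (uc t c : ℝ) + uc t c := by exact_mod_cast h6
    linarith
  · -- inert
    have hρu : IsUnit ρ := by
      rw [isUnit_iff hD]
      rw [hc2] at hnn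
      exact Nat.eq_of_mul_eq_mul_left (pow_pos hp.pos 2) (by rw [hnn, mul_one])
    have hpπ : Associated (p : Qd t c) π := by
      obtain ⟨u, hu⟩ := hρu
      exact (show Associated π (p : Qd t c) from ⟨u, by rw [hu, hρ]⟩).symm
    have hle : ∀ d ∈ Nn t c (p ^ j), LK d ≤
        if d ∈ asc (π ^ (j / 2)) then 2 * Real.log p else 0 := by
      intro d hd
      by_cases h0 : LK d = 0
      · rw [h0]; split_ifs <;> simp [hlog]
      obtain ⟨π₂, k, h2, hk, ha⟩ := LK_ne h0
      have hnm : nm (π₂ ^ k) = p ^ j := by rw [nm_assoc hD ha]; exact ((mem_Nn hD).1 hd).2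
      have h3 : π₂ ∣ π := (habove π₂ k h2 hk hnm).trans hpπ.dvd
      have h6 : Associated π₂ π := (h2.dvd_prime_iff_associated hπ).1 h3
      have h7 : nm π₂ = p ^ 2 := by rw [nm_assoc hD h6, hc2]
      have h8 : 2 * k = j := by
        rw [nm_pow, h7, ← pow_mul] at hnm
        exact Nat.pow_right_injective hp.two_le hnm
      have h9 : j / 2 = k := by omega
      rw [h9, if_pos ((mem_asc hD).2 ((h6.symm.pow_pow (n := k)).trans ha)), LK_eq hD h2 hk ha, h7]
      rw [Nat.cast_pow, Real.log_pow]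
      norm_num
    refine (Finset.sum_le_sum hle).trans ?_
    rw [← Finset.sum_filter, Finset.sum_const, nsmul_eq_mul]
    have h6 : ((Nn t c (p ^ j)).filter (fun d => d ∈ asc (π ^ (j / 2)))).card ≤ uc t c := by
      refine (Finset.card_le_card (fun d hd => (mem_filter.1 hd).2)).trans ?_
      rw [card_asc hD (pow_ne_zero _ hπ.ne_zero)]
    have h7 : (((Nn t c (p ^ j)).filter (fun d => d ∈ asc (π ^ (j / 2)))).card : ℝ) ≤ uc t c := by
      exact_mod_cast h6
    nlinarith

/-- the coefficients of the logarithmic derivative -/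
noncomputable def gK (φ : Qd t c → ℂ) (m : ℕ) : ℂ := Bk φ m / (vonMangoldt m : ℂ)

lemma Bk_le (hD : t ^ 2 < 4 * c) (hP : S_PID t c) {M : ℕ} (hM : 1 ≤ M) {φ : Qd t c → ℂ}
    (H : HCh M φ) (m : ℕ) : ‖Bk φ m‖ ≤ 2 * vonMangoldt m := by
  have huc : (0 : ℝ) < uc t c := by exact_mod_cast uc_pos hD
  rw [Bk, norm_div, Complex.norm_natCast, div_le_iff₀ huc]
  calc ‖∑ d ∈ Nn t c m, (LK d : ℂ) * φ d‖ ≤ ∑ d ∈ Nn t c m, ‖(LK d : ℂ) * φ d‖ :=
        norm_sum_le _ _
    _ ≤ ∑ d ∈ Nn t c m, LK d := by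
        refine Finset.sum_le_sum fun d _ => ?_
        rw [norm_mul, Complex.norm_real, Real.norm_of_nonneg (LK_nonneg d)]
        exact mul_le_of_le_one_right (LK_nonneg d) (HCh.norm_le hM H d)
    _ ≤ _ := (sum_LK_le hD hP m).trans (le_of_eq (by ring))

lemma Bk_eq (hD : t ^ 2 < 4 * c) (hP : S_PID t c) {M : ℕ} (hM : 1 ≤ M) {φ : Qd t c → ℂ}
    (H : HCh M φ) (m : ℕ) : (vonMangoldt m : ℂ) * gK φ m = Bk φ m := by
  unfold gK
  by_cases h : vonMangoldt m = 0
  · have h1 := Bk_le hD hP hM H m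
    rw [h, mul_zero, norm_le_zero_iff] at h1
    rw [h1, h]
    simp
  · rw [mul_div_cancel₀]
    exact_mod_cast h

lemma gK_le (hD : t ^ 2 < 4 * c) (hP : S_PID t c) {M : ℕ} (hM : 1 ≤ M) {φ : Qd t c → ℂ}
    (H : HCh M φ) (m : ℕ) : ‖gK φ m‖ ≤ 2 := by
  unfold gK
  have h0 : 0 ≤ vonMangoldt m := ArithmeticFunction.vonMangoldt_nonneg
  rw [norm_div, Complex.norm_real, Real.norm_of_nonneg h0]
  rcases h0.eq_or_lt with h | h
  · rw [← h, div_zero]; norm_num
  · rw [div_le_iff₀ h]
    exact Bk_le hD hP hM H m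

/-- the logarithmic derivative of the divisor function -/
lemma tau_log {n : ℕ} (hn : n ≠ 0) : (n.divisors.card : ℝ) * Real.log n =
    ∑ d ∈ n.divisors, 2 * vonMangoldt d * ((n / d).divisors.card : ℝ) := by
  have h1 : ∑ d ∈ n.divisors, Real.log d = ∑ d ∈ n.divisors, Real.log (n / d : ℕ) :=
    (Nat.sum_div_divisors n (fun d => Real.log d)).symm
  have h2 : (n.divisors.card : ℝ) * Real.log n = 2 * ∑ d ∈ n.divisors, Real.log (n / d : ℕ) := by
    have h3 : ∀ d ∈ n.divisors, Real.log n = Real.log d + Real.log (n / d : ℕ) := by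
      intro d hd
      have hd1 := Nat.dvd_of_mem_divisors hd
      have hd0 : d ≠ 0 := by rintro rfl; exact hn (Nat.zero_dvd.1 hd1)
      have hd2 : n / d ≠ 0 := (Nat.div_pos (Nat.divisor_le hd) (Nat.pos_of_ne_zero hd0)).ne'
      rw [← Real.log_mul (by exact_mod_cast hd0) (by exact_mod_cast hd2), ← Nat.cast_mul,
        Nat.mul_div_cancel' hd1]
    calc (n.divisors.card : ℝ) * Real.log n = ∑ d ∈ n.divisors, Real.log n := by
          rw [Finset.sum_const, nsmul_eq_mul]
      _ = ∑ d ∈ n.divisors, (Real.log d + Real.log (n / d : ℕ)) := Finset.sum_congr rfl h3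
      _ = _ := by rw [Finset.sum_add_distrib, h1]; ring
  rw [h2, Finset.mul_sum]
  have h3 : ∀ d ∈ n.divisors, 2 * Real.log (n / d : ℕ) =
      ∑ e ∈ (n / d).divisors, 2 * vonMangoldt e := by
    intro d _
    rw [← Finset.mul_sum, ArithmeticFunction.vonMangoldt_sum]
  rw [Finset.sum_congr rfl h3]
  have h4 : ∀ d ∈ n.divisors, 2 * vonMangoldt d * ((n / d).divisors.card : ℝ) =
      ∑ e ∈ (n / d).divisors, 2 * vonMangoldt d := by
    intro d _
    rw [Finset.sum_const, nsmul_eq_mul]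
    ring
  rw [Finset.sum_congr rfl h4]
  rw [Finset.sum_sigma', Finset.sum_sigma']
  refine Finset.sum_bij' (fun x _ => ⟨x.2, x.1⟩) (fun x _ => ⟨x.2, x.1⟩) ?_ ?_ ?_ ?_ ?_
  all_goals
    simp only [Finset.mem_sigma, Nat.mem_divisors]
  · rintro ⟨a, b⟩ ⟨⟨h5, h6⟩, h7, h8⟩
    have h9 : b * a ∣ n := by
      obtain ⟨k, hk⟩ := h5
      have ha : 0 < a := Nat.pos_of_ne_zero (by rintro rfl; simp at hk; exact hn hk)
      rw [hk, Nat.mul_div_cancel_left _ ha] at h7
      rw [hk, mul_comm b a]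
      exact Nat.mul_dvd_mul_left a h7
    have hb : 0 < b := Nat.pos_of_ne_zero (by
      rintro rfl; rw [zero_mul] at h9; exact hn (Nat.zero_dvd.1 h9))
    refine ⟨⟨(dvd_mul_right b a).trans h9, h6⟩, ?_, ?_⟩
    · exact (Nat.dvd_div_iff_mul_dvd ((dvd_mul_right b a).trans h9)).2 h9
    · exact (Nat.div_pos (Nat.le_of_dvd (Nat.pos_of_ne_zero hn) ((dvd_mul_right b a).trans h9))
        hb).ne'
  · rintro ⟨a, b⟩ ⟨⟨h5, h6⟩, h7, h8⟩
    have h9 : b * a ∣ n := by
      obtain ⟨k, hk⟩ := h5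
      have ha : 0 < a := Nat.pos_of_ne_zero (by rintro rfl; simp at hk; exact hn hk)
      rw [hk, Nat.mul_div_cancel_left _ ha] at h7
      rw [hk, mul_comm b a]
      exact Nat.mul_dvd_mul_left a h7
    have hb : 0 < b := Nat.pos_of_ne_zero (by
      rintro rfl; rw [zero_mul] at h9; exact hn (Nat.zero_dvd.1 h9))
    refine ⟨⟨(dvd_mul_right b a).trans h9, h6⟩, ?_, ?_⟩
    · exact (Nat.dvd_div_iff_mul_dvd ((dvd_mul_right b a).trans h9)).2 h9
    · exact (Nat.div_pos (Nat.le_of_dvd (Nat.pos_of_ne_zero hn) ((dvd_mul_right b a).trans h9))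
        hb).ne'
  all_goals (intros; trivial)

theorem aL_zero (hD : t ^ 2 < 4 * c) (φ : Qd t c → ℂ) : aL φ 0 = 0 := by
  rw [aL_eq, Finset.sum_eq_zero, zero_div]
  intro z hz
  have := ((mem_Nn hD).1 hz).1
  omega

theorem aL_one (hD : t ^ 2 < 4 * c) {M : ℕ} {φ : Qd t c → ℂ} (H : HCh M φ) : aL φ 1 = 1 := by
  have huc : (uc t c : ℂ) ≠ 0 := by exact_mod_cast (uc_pos hD).ne'
  have h1 : Nn t c 1 = ball t c 1 := by
    ext z
    rw [mem_Nn hD, mem_ball1 hD]
    simp
  rw [aL_eq, h1, Finset.sum_congr rfl (fun z hz => H.unit z ((mem_ball1 hD).1 hz)),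
    Finset.sum_const, nsmul_eq_mul, mul_one]
  exact div_self huc

theorem lgK (hD : t ^ 2 < 4 * c) (hP : S_PID t c) {M : ℕ} (hM : 1 ≤ M) {φ : Qd t c → ℂ}
    (H : HCh M φ) : Lg (aL φ) (gK φ) := by
  have hlg : ∀ n : ℕ, n ≠ 0 → aL φ n * (Real.log n : ℂ) =
      ∑ d ∈ n.divisors, (vonMangoldt d : ℂ) * gK φ d * aL φ (n / d) := by
    intro n hn
    rw [log_id hD hP H hn]
    exact Finset.sum_congr rfl fun d _ => by rw [Bk_eq hD hP hM H]
  refine ⟨aL_zero hD φ, aL_one hD H, ?_, gK_le hD hP hM H, hlg⟩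
  intro n
  induction n using Nat.strong_induction_on with
  | _ n ih =>
    rcases Nat.lt_or_ge n 2 with h2 | h2
    · interval_cases n
      · rw [aL_zero hD]; simp
      · rw [aL_one hD H]; simp
    · have hn : n ≠ 0 := by omega
      have hlog : 0 < Real.log n := Real.log_pos (by exact_mod_cast h2)
      have h1 := hlg n hn
      have h3 : ‖aL φ n‖ * Real.log n ≤ (n.divisors.card : ℝ) * Real.log n := by
        rw [tau_log hn]
        calc ‖aL φ n‖ * Real.log n = ‖aL φ n * (Real.log n : ℂ)‖ := by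
              rw [norm_mul, Complex.norm_real, Real.norm_of_nonneg hlog.le]
          _ ≤ ∑ d ∈ n.divisors, ‖(vonMangoldt d : ℂ) * gK φ d * aL φ (n / d)‖ := by
              rw [h1]; exact norm_sum_le _ _
          _ ≤ _ := by
              refine Finset.sum_le_sum fun d hd => ?_
              have h0 : 0 ≤ vonMangoldt d := ArithmeticFunction.vonMangoldt_nonneg
              rw [norm_mul, norm_mul, Complex.norm_real, Real.norm_of_nonneg h0]
              rcases h0.eq_or_lt with h4 | h4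
              · rw [← h4]; simp
              · have hd1 : 1 < d := by
                  by_contra h5
                  interval_cases d
                  · simp at h4
                  · simp at h4
                have h6 : ‖aL φ (n / d)‖ ≤ ((n / d).divisors.card : ℝ) :=
                  ih (n / d) (Nat.div_lt_self (by omega) hd1)
                have h7 := gK_le hD hP hM H d
                calc vonMangoldt d * ‖gK φ d‖ * ‖aL φ (n / d)‖
                    ≤ vonMangoldt d * 2 * ((n / d).divisors.card : ℝ) := by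
                      gcongr
                  _ = _ := by ring
      exact le_of_mul_le_mul_right h3 hlog

end Pool.Agent.W357.EG
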